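import Pool.Agent.Lib.MP_b5021c_nt.IfaceJ

/-!
# Row CIR: irreducibility of the completion
-/

namespace Pool.Agent.B5.K.H97

open Pool.Agent.B5 LaurentPolynomial

section Gen

variable {B : Type} [CommRing B] [IsDomain B]

/-- Normal form of a non-zero Laurent polynomial. -/
theorem normal (f : LaurentPolynomial B) (hf : f ≠ 0) :
    ∃ (n : ℤ) (F : Polynomial B), F.coeff 0 ≠ 0 ∧ f = T n * Polynomial.toLaurent F := by
  obtain ⟨n, F, hF⟩ := LaurentPolynomial.exists_T_pow f
  have hF0 : F ≠ 0 := by
    rintro rfl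
    rw [map_zero] at hF
    have h1 : f * T n * T (-(n : ℤ)) = 0 := by rw [← hF, zero_mul]
    rw [mul_T_assoc, add_neg_cancel, T_zero, mul_one] at h1
    exact hf h1
  obtain ⟨q, hq, hq2⟩ := Polynomial.exists_eq_pow_rootMultiplicity_mul_and_not_dvd F hF0 0
  rw [map_zero, sub_zero] at hq hq2
  refine ⟨(F.rootMultiplicity 0 : ℤ) - n, q, fun h => hq2 (Polynomial.X_dvd_iff.mpr h), ?_⟩
  have h1 : f = Polynomial.toLaurent F * T (-(n : ℤ)) := by
    rw [hF, mul_T_assoc, add_neg_cancel, T_zero, mul_one]
  rw [h1]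
  conv_lhs => rw [hq]
  rw [map_mul, Polynomial.toLaurent_X_pow, sub_eq_add_neg, T_add]
  ring

theorem shift_eq {n : ℤ} {F P : Polynomial B} (hF : F.coeff 0 ≠ 0) (hP : P.coeff 0 ≠ 0)
    (h : T n * Polynomial.toLaurent F = Polynomial.toLaurent P) : F = P := by
  have key : ∀ (k : ℕ) (F P : Polynomial B), P.coeff 0 ≠ 0 →
      T (k : ℤ) * Polynomial.toLaurent F = Polynomial.toLaurent P → F = P := by
    intro k F P hP h
    rw [← Polynomial.toLaurent_X_pow, ← map_mul, Polynomial.toLaurent_inj] at h
    rcases Nat.eq_zero_or_pos k with hk | hk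
    · subst hk
      rw [pow_zero, one_mul] at h
      exact h
    · exfalso
      apply hP
      rw [← h, Polynomial.coeff_X_pow_mul', if_neg (by omega)]
  rcases le_or_gt 0 n with hn | hn
  · obtain ⟨k, rfl⟩ := Int.eq_ofNat_of_zero_le hn
    exact key k F P hP h
  · obtain ⟨k, hk⟩ := Int.eq_ofNat_of_zero_le (show 0 ≤ -n by omega)
    refine (key k P F hF ?_).symm
    rw [← h, ← mul_assoc, ← T_add, ← hk, neg_add_cancel, T_zero, one_mul]

/-- A linear Laurent polynomial without common factors of its coefficients is irreducible. -/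
theorem irr_lin [IsNoetherianRing B] (a b : B) (ha : a ≠ 0) (hb : b ≠ 0)
    (h : ∀ c : B, Irreducible c → c ∣ a → c ∣ b → False) :
    Irreducible (C a + T 1 * C b : LaurentPolynomial B) := by
  have hP : (C a + T 1 * C b : LaurentPolynomial B) =
      Polynomial.toLaurent (Polynomial.C a + Polynomial.X * Polynomial.C b) := by
    rw [map_add, map_mul, Polynomial.toLaurent_C, Polynomial.toLaurent_C, Polynomial.toLaurent_X]
  set P : Polynomial B := Polynomial.C a + Polynomial.X * Polynomial.C b with hPdef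
  have hc0 : P.coeff 0 = a := by
    rw [hPdef, Polynomial.coeff_add, Polynomial.coeff_C_zero, Polynomial.mul_coeff_zero,
      Polynomial.coeff_X_zero, zero_mul, add_zero]
  have hc1 : P.coeff 1 = b := by
    rw [hPdef, Polynomial.coeff_add, Polynomial.coeff_C_of_ne_zero one_ne_zero, zero_add,
      Polynomial.coeff_X_mul, Polynomial.coeff_C_zero]
  have hdeg : P.natDegree ≤ 1 := by
    rw [hPdef]
    refine (Polynomial.natDegree_add_le _ _).trans (max_le (by simp) ?_)
    refine Polynomial.natDegree_mul_le.trans ?_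
    rw [Polynomial.natDegree_C, Polynomial.natDegree_X]
  have hdeg1 : P.natDegree = 1 :=
    le_antisymm hdeg (Polynomial.le_natDegree_of_ne_zero (by rw [hc1]; exact hb))
  have hPne : P ≠ 0 := by
    intro h0
    rw [h0, Polynomial.coeff_zero] at hc0
    exact ha hc0.symm
  have hPc : P.coeff 0 ≠ 0 := by rw [hc0]; exact ha
  -- the key step
  have key : ∀ f g : LaurentPolynomial B, Polynomial.toLaurent P = f * g →
      ∃ F G : Polynomial B, P = F * G ∧ (F.natDegree = 0 → IsUnit f) ∧
        (G.natDegree = 0 → IsUnit g) := by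
    intro f g hfg
    have hne : Polynomial.toLaurent P ≠ 0 := Polynomial.toLaurent_ne_zero.mpr hPne
    have hf : f ≠ 0 := by
      rintro rfl
      rw [zero_mul] at hfg
      exact hne hfg
    have hg : g ≠ 0 := by
      rintro rfl
      rw [mul_zero] at hfg
      exact hne hfg
    obtain ⟨m, F, hF, hfF⟩ := normal f hf
    obtain ⟨n, G, hG, hgG⟩ := normal g hg
    have hFG : F * G = P := by
      refine shift_eq (n := m + n) ?_ hPc ?_
      · rw [Polynomial.mul_coeff_zero]; exact mul_ne_zero hF hG
      · rw [hfg, hfF, hgG, map_mul, T_add]; ring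
    refine ⟨F, G, hFG.symm, ?_, ?_⟩
    · intro hd
      obtain ⟨c, rfl⟩ : ∃ c, F = Polynomial.C c := ⟨_, Polynomial.eq_C_of_natDegree_eq_zero hd⟩
      have hca : c ∣ a := by
        rw [← hc0, ← hFG, Polynomial.coeff_C_mul]; exact Dvd.intro _ rfl
      have hcb : c ∣ b := by
        rw [← hc1, ← hFG, Polynomial.coeff_C_mul]; exact Dvd.intro _ rfl
      have hcu : IsUnit c := by
        by_contra hcu
        obtain ⟨i, hi, hic⟩ := WfDvdMonoid.exists_irreducible_factor hcu
          (fun h0 => ha (zero_dvd_iff.mp (h0 ▸ hca)))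
        exact h i hi (hic.trans hca) (hic.trans hcb)
      rw [hfF, Polynomial.toLaurent_C]
      exact (isUnit_T m).mul (hcu.map C)
    · intro hd
      obtain ⟨c, rfl⟩ : ∃ c, G = Polynomial.C c := ⟨_, Polynomial.eq_C_of_natDegree_eq_zero hd⟩
      have hca : c ∣ a := by
        rw [← hc0, ← hFG, Polynomial.coeff_mul_C]; exact Dvd.intro_left _ rfl
      have hcb : c ∣ b := by
        rw [← hc1, ← hFG, Polynomial.coeff_mul_C]; exact Dvd.intro_left _ rfl
      have hcu : IsUnit c := by
        by_contra hcu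
        obtain ⟨i, hi, hic⟩ := WfDvdMonoid.exists_irreducible_factor hcu
          (fun h0 => ha (zero_dvd_iff.mp (h0 ▸ hca)))
        exact h i hi (hic.trans hca) (hic.trans hcb)
      rw [hgG, Polynomial.toLaurent_C]
      exact (isUnit_T n).mul (hcu.map C)
  rw [hP]
  refine ⟨?_, ?_⟩
  · intro hu
    obtain ⟨g, hg⟩ := hu.exists_right_inv
    have hgne : g ≠ 0 := by
      rintro rfl
      rw [mul_zero] at hg
      exact zero_ne_one hg
    obtain ⟨n, G, hG, hgG⟩ := normal g hgne
    have h1 : P * G = 1 := by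
      refine shift_eq (n := n) ?_ (by simp) ?_
      · rw [Polynomial.mul_coeff_zero]; exact mul_ne_zero hPc hG
      · rw [map_one, ← hg, hgG, map_mul]; ring
    have h2 := congrArg Polynomial.natDegree h1
    rw [Polynomial.natDegree_mul hPne (fun h0 => hG (by rw [h0, Polynomial.coeff_zero])),
      Polynomial.natDegree_one, hdeg1] at h2
    omega
  · intro f g hfg
    obtain ⟨F, G, hPFG, hf, hg⟩ := key f g hfg
    have hFne : F ≠ 0 := fun h0 => hPne (by rw [hPFG, h0, zero_mul])
    have hGne : G ≠ 0 := fun h0 => hPne (by rw [hPFG, h0, mul_zero])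
    have h2 := congrArg Polynomial.natDegree hPFG
    rw [Polynomial.natDegree_mul hFne hGne, hdeg1] at h2
    rcases Nat.eq_zero_or_pos F.natDegree with h3 | h3
    · exact Or.inl (hf h3)
    · exact Or.inr (hg (by omega))

end Gen

section Cur

variable (O : Type) [CommRing O] [Coef O] (L : Type) [AddCommGroup L]

/-- Laurent polynomials in the last variable. -/
noncomputable def cur : AO O (L × ℤ) ≃+* LaurentPolynomial (AO O L) :=
  (AddMonoidAlgebra.mapDomainRingEquiv (RO O) (AddEquiv.prodComm : L × ℤ ≃+ ℤ × L)).trans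
    AddMonoidAlgebra.curryRingEquiv

theorem cur_single (a : L) (n : ℤ) (q : RO O) :
    cur O L (AddMonoidAlgebra.single (a, n) q) = AddMonoidAlgebra.single n (AddMonoidAlgebra.single a q) := by
  simp [cur]

theorem cur_inl (G : AO O L) :
    cur O L (AddMonoidAlgebra.mapDomainRingHom (RO O) (AddMonoidHom.inl L ℤ) G) = C G := by
  induction G using AddMonoidAlgebra.induction_linear with
  | zero => simp
  | add p q hp hq => rw [map_add, map_add, hp, hq, map_add]
  | single a r =>
    rw [AddMonoidAlgebra.mapDomainRingHom_apply, AddMonoidAlgebra.mapDomain_single]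
    exact cur_single O L a 0 r

theorem cur_compl (G : AO O L) : cur O L (compl G) = C G + T 1 * C (sharp G) := by
  unfold compl
  rw [map_add, map_mul, cur_inl, cur_inl]
  congr 2
  unfold mon
  rw [cur_single]
  rfl

end Cur

theorem sharp_zero {O : Type} [CommRing O] [Coef O] {L : Type} [AddCommGroup L] (G : AO O L)
    (h : sharp G = 0) : G = 0 := by
  apply AddMonoidAlgebra.ext
  apply Finsupp.ext
  intro a
  have h1 : (sharp G).coeff (-a) = 0 := by rw [h]; rfl
  rw [sharp_coeff', neg_neg] at h1
  unfold rsh at h1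
  have h2 : (LaurentPolynomial.invert (R := O))
      (AddMonoidAlgebra.mapRingHom ℤ (Coef.conj : O ≃+* O).toRingHom (G.coeff a)) = 0 := h1
  rw [EmbeddingLike.map_eq_zero_iff] at h2
  apply AddMonoidAlgebra.ext
  apply Finsupp.ext
  intro n
  have h3 := congrArg (fun q : RO O => q.coeff n) h2
  simpa using h3

theorem cir : ComplIrrS := by
  intro O _ _ _ _ L _ _ _ G hG h
  have h1 : Irreducible (cur O L (compl G)) := by
    rw [cur_compl]
    exact irr_lin G (sharp G) hG (fun h0 => hG (sharp_zero G h0)) h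
  exact (MulEquiv.irreducible_iff (cur O L)).mp h1

end Pool.Agent.B5.K.H97
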